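import Pool.Agent.Helper87.VM.Lib

/-! # RES: tuples of binary forms with a common zero form a closed set -/

set_option autoImplicit false

namespace Pool.Agent.Helper87.VM

open MvPolynomial Pool.Agent.Helper48.VMRT

section Res

variable {N d : ℕ}

/-- A linear combination of the polynomials attached to `c`. -/
noncomputable def res_lc (c : Coef N d) (l : Fin (N + 1) → ℂ) : Polynomial ℂ :=
  ∑ i, Polynomial.C (l i) * cpol c i

theorem res_lc_natDegree (c : Coef N d) (l : Fin (N + 1) → ℂ) : (res_lc c l).natDegree ≤ d := by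
  refine Polynomial.natDegree_sum_le_of_forall_le _ _ fun i _ => ?_
  exact (Polynomial.natDegree_C_mul_le _ _).trans (cpol_natDegree c i)

theorem res_lc_eval (c : Coef N d) (l : Fin (N + 1) → ℂ) (z : ℂ) :
    (res_lc c l).eval z = ∑ i, l i * (cpol c i).eval z := by
  simp only [res_lc, Polynomial.eval_finset_sum, Polynomial.eval_mul, Polynomial.eval_C]

theorem res_lc_coeff (c : Coef N d) (l : Fin (N + 1) → ℂ) (j : ℕ) :
    (res_lc c l).coeff j = ∑ i, l i * (cpol c i).coeff j := by
  simp only [res_lc, Polynomial.finsetSum_coeff, Polynomial.coeff_C_mul]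

theorem res_lc_single (c : Coef N d) (i : Fin (N + 1)) :
    res_lc c (Pi.single i 1) = cpol c i := by
  classical
  rw [res_lc, Finset.sum_eq_single i]
  · rw [Pi.single_eq_same, Polynomial.C_1, one_mul]
  · intro j _ hj
    rw [Pi.single_eq_of_ne hj, Polynomial.C_0, zero_mul]
  · intro h
    exact absurd (Finset.mem_univ i) h

/-- The universal linear combination. -/
noncomputable def res_up (N d : ℕ) (l : Fin (N + 1) → ℂ) :
    Polynomial (MvPolynomial (Fin (N + 1) × Fin (d + 1)) ℂ) :=
  ∑ i, Polynomial.C (C (l i)) *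
    ∑ j : Fin (d + 1), Polynomial.C (X (i, j)) * Polynomial.X ^ (j : ℕ)

theorem res_up_map (c : Coef N d) (l : Fin (N + 1) → ℂ) :
    (res_up N d l).map (eval c) = res_lc c l := by
  simp only [res_up, res_lc, cpol, Polynomial.map_sum, Polynomial.map_mul, Polynomial.map_C,
    Polynomial.map_pow, Polynomial.map_X, eval_C, eval_X]

theorem res_hev (c : Coef N d) {s t : ℂ} (h : pt c s t = 0) (i : Fin (N + 1)) :
    hev d (cpol c i) s t = 0 := by
  have h1 := congrFun h i
  rw [← hevv_cpol] at h1
  exact h1

theorem res_pt (c : Coef N d) {s t : ℂ} (h : ∀ i, hev d (cpol c i) s t = 0) : pt c s t = 0 := by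
  rw [← hevv_cpol]
  funext i
  exact h i

/-- If all members vanish at a point then the resultants vanish. -/
theorem res_mp (hd : 1 ≤ d) (c : Coef N d) {s t : ℂ} (hst : (s, t) ≠ (0, 0))
    (h : pt c s t = 0) (l m : Fin (N + 1) → ℂ) :
    (res_lc c l).resultant (res_lc c m) d d = 0 := by
  have hh := res_hev c h
  by_cases hs : s = 0
  · subst hs
    have ht : t ≠ 0 := fun h0 => hst (by rw [h0])
    have hc : ∀ i, (cpol c i).coeff d = 0 := by
      intro i
      have h1 := hh i
      rw [hev_zero_left] at h1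
      rcases mul_eq_zero.1 h1 with h2 | h2
      · exact h2
      · exact absurd h2 (pow_ne_zero _ ht)
    have key : ∀ l : Fin (N + 1) → ℂ, (res_lc c l).natDegree < d := by
      intro l
      refine lt_of_le_of_ne (res_lc_natDegree c l) fun e => ?_
      have h1 : (res_lc c l).coeff d = 0 := by
        rw [res_lc_coeff]
        exact Finset.sum_eq_zero fun i _ => by rw [hc i, mul_zero]
      have h2 : (res_lc c l).leadingCoeff = 0 := by
        rw [Polynomial.leadingCoeff, e, h1]
      rw [Polynomial.leadingCoeff_eq_zero] at h2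
      rw [h2, Polynomial.natDegree_zero] at e
      omega
    exact Polynomial.resultant_eq_zero_of_lt_lt _ _ _ _ (key l) (key m)
  · have he : ∀ i, (cpol c i).eval (t / s) = 0 := by
      intro i
      have h1 := hh i
      rw [hev_of_ne (cpol_natDegree c i) hs] at h1
      rcases mul_eq_zero.1 h1 with h2 | h2
      · exact absurd h2 (pow_ne_zero _ hs)
      · exact h2
    obtain ⟨p, q, _, _, e⟩ := Polynomial.exists_mul_add_mul_eq_C_resultant (m := d) (n := d)
      (res_lc c l) (res_lc c m) (res_lc_natDegree c l) (res_lc_natDegree c m) (Or.inl (by omega))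
    have h1 := congrArg (Polynomial.eval (t / s)) e
    have h2 : ∀ l : Fin (N + 1) → ℂ, (res_lc c l).eval (t / s) = 0 := fun l => by
      rw [res_lc_eval]
      exact Finset.sum_eq_zero fun i _ => by rw [he i, mul_zero]
    rw [Polynomial.eval_add, Polynomial.eval_mul, Polynomial.eval_mul, h2 l, h2 m, zero_mul,
      zero_mul, add_zero, Polynomial.eval_C] at h1
    exact h1.symm

theorem res_mpr (hd : 1 ≤ d) (c : Coef N d)
    (h : ∀ l m : Fin (N + 1) → ℂ, (res_lc c l).resultant (res_lc c m) d d = 0) :
    ∃ s t : ℂ, (s, t) ≠ (0, 0) ∧ pt c s t = 0 := by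
  classical
  by_contra hno
  push Not at hno
  obtain ⟨i0, hi0⟩ : ∃ i, (cpol c i).coeff d ≠ 0 := by
    by_contra hcon
    push Not at hcon
    refine hno 0 1 (by simp) (res_pt c fun i => ?_)
    rw [hev_zero_left, hcon i, zero_mul]
  have hfd : (cpol c i0).natDegree = d :=
    Polynomial.natDegree_eq_of_le_of_coeff_ne_zero (cpol_natDegree c i0) hi0
  have hf0 : cpol c i0 ≠ 0 := by
    intro h0
    rw [h0, Polynomial.coeff_zero] at hi0
    exact hi0 rfl
  have hroot : ∀ z : ℂ, ∃ i, (cpol c i).eval z ≠ 0 := by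
    intro z
    by_contra hcon
    push Not at hcon
    refine hno 1 z (by simp) (res_pt c fun i => ?_)
    rw [hev_one (cpol_natDegree c i), hcon i]
  set Q : Polynomial ℂ := ∏ z ∈ (cpol c i0).roots.toFinset,
    ∑ i : Fin (N + 1), Polynomial.C ((cpol c i).eval z) * Polynomial.X ^ (i : ℕ) with hQdef
  have hQ : Q ≠ 0 := by
    rw [hQdef, Finset.prod_ne_zero_iff]
    intro z _ h0
    obtain ⟨i, hi⟩ := hroot z
    have h1 := congrArg (fun p : Polynomial ℂ => p.coeff (i : ℕ)) h0
    simp only [Polynomial.finsetSum_coeff, Polynomial.coeff_C_mul_X_pow,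
      Polynomial.coeff_zero] at h1
    rw [Finset.sum_eq_single i] at h1
    · rw [if_pos rfl] at h1
      exact hi h1
    · intro j _ hj
      rw [if_neg]
      intro e
      exact hj (Fin.ext e.symm)
    · intro h2
      exact absurd (Finset.mem_univ i) h2
  obtain ⟨x, hx⟩ : ∃ x : ℂ, Q.eval x ≠ 0 := by
    by_contra hcon
    push Not at hcon
    exact hQ (Polynomial.funext fun r => by rw [hcon r, Polynomial.eval_zero])
  have hg : ∀ z : ℂ, (cpol c i0).eval z = 0 →
      (res_lc c (fun i => x ^ (i : ℕ))).eval z ≠ 0 := by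
    intro z hz h0
    rw [hQdef, Polynomial.eval_prod, Finset.prod_ne_zero_iff] at hx
    have hmem : z ∈ (cpol c i0).roots.toFinset := by
      rw [Multiset.mem_toFinset, Polynomial.mem_roots hf0]
      exact hz
    apply hx z hmem
    rw [res_lc_eval] at h0
    simp only [Polynomial.eval_finset_sum, Polynomial.eval_mul, Polynomial.eval_C,
      Polynomial.eval_pow, Polynomial.eval_X]
    rw [← h0]
    exact Finset.sum_congr rfl fun i _ => mul_comm _ _
  have hcop : IsCoprime (cpol c i0) (res_lc c (fun i => x ^ (i : ℕ))) := by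
    rw [Polynomial.isCoprime_iff_aeval_ne_zero_of_isAlgClosed ℂ ℂ]
    intro z
    by_cases hz : (cpol c i0).eval z = 0
    · right
      rw [Polynomial.aeval_def, Polynomial.eval₂_eq_eval_map, Algebra.algebraMap_self,
        Polynomial.map_id]
      exact hg z hz
    · left
      rw [Polynomial.aeval_def, Polynomial.eval₂_eq_eval_map, Algebra.algebraMap_self,
        Polynomial.map_id]
      exact hz
  have hne := Polynomial.resultant_ne_zero _ _ hcop
  have h1 := h (Pi.single i0 1) (fun i => x ^ (i : ℕ))
  rw [res_lc_single] at h1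
  obtain ⟨k, hk⟩ : ∃ k, d = (res_lc c (fun i => x ^ (i : ℕ))).natDegree + k :=
    Nat.exists_eq_add_of_le (res_lc_natDegree c _)
  have h2 := Polynomial.resultant_add_right_deg (cpol c i0)
    (res_lc c (fun i => x ^ (i : ℕ))) d (res_lc c (fun i => x ^ (i : ℕ))).natDegree k le_rfl
  rw [← hk, h1] at h2
  rw [hfd] at hne
  exact mul_ne_zero (pow_ne_zero k hi0) hne h2.symm

end Res

theorem st_RES : ST_RES := by
  intro N d
  rcases Nat.eq_zero_or_pos d with hd | hd
  · subst hd
    refine zclosed_of_eqs (Set.range fun i : Fin (N + 1) × Fin 1 => (X i :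
      MvPolynomial (Fin (N + 1) × Fin (0 + 1)) ℂ)) fun c => ?_
    constructor
    · rintro ⟨s, t, _, h⟩ p ⟨⟨i, j⟩, rfl⟩
      have h1 := congrFun h i
      simp only [pt, Pi.zero_apply] at h1
      rw [Fin.sum_univ_one] at h1
      have hj : j = 0 := Subsingleton.elim _ _
      subst hj
      rw [eval_X]
      simpa using h1
    · intro h
      refine ⟨1, 0, by simp, ?_⟩
      funext i
      simp only [pt, Pi.zero_apply]
      rw [Fin.sum_univ_one]
      have h1 := h _ ⟨(i, 0), rfl⟩
      rw [eval_X] at h1
      rw [h1, zero_mul, zero_mul]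
  · refine zclosed_of_eqs (Set.range fun p : (Fin (N + 1) → ℂ) × (Fin (N + 1) → ℂ) =>
      (res_up N d p.1).resultant (res_up N d p.2) d d) fun c => ?_
    constructor
    · rintro ⟨s, t, hst, h⟩ q ⟨p, rfl⟩
      show eval c ((res_up N d p.1).resultant (res_up N d p.2) d d) = 0
      rw [← Polynomial.resultant_map_map, res_up_map, res_up_map]
      exact res_mp hd c hst h p.1 p.2
    · intro h
      refine res_mpr hd c fun l m => ?_
      have h1 := h _ ⟨(l, m), rfl⟩
      rw [← Polynomial.resultant_map_map, res_up_map, res_up_map] at h1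
      exact h1

end Pool.Agent.Helper87.VM
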